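import Pool.Agent.H743.JL.StmZ
import Pool.Agent.H743.X17.Bsd

/-!
# JZ (helper227 for helper743): the short form of a curve
-/

set_option autoImplicit false
set_option linter.all false

open scoped Classical

namespace Pool.Agent.H227.JZ

open WeierstrassCurve
open Pool.Agent.Y700 (VR)
open Pool.Agent.H743.X17 (FinSha finSha_iff')
open Pool.Agent.H743.JL (S_SF TR Sh)

section

variable (W : WeierstrassCurve ℤ) (a b : ℤ) (u : ℚ)

theorem c4q : (W.c₄ : ℚ) = ((W.a₁ : ℚ) ^ 2 + 4 * W.a₂) ^ 2 -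
    24 * (2 * W.a₄ + (W.a₁ : ℚ) * W.a₃) := by
  simp only [WeierstrassCurve.c₄, WeierstrassCurve.b₂, WeierstrassCurve.b₄]
  push_cast
  ring

theorem c6q : (W.c₆ : ℚ) = -((W.a₁ : ℚ) ^ 2 + 4 * W.a₂) ^ 3 +
    36 * ((W.a₁ : ℚ) ^ 2 + 4 * W.a₂) * (2 * W.a₄ + (W.a₁ : ℚ) * W.a₃) -
      216 * ((W.a₃ : ℚ) ^ 2 + 4 * W.a₆) := by
  simp only [WeierstrassCurve.c₆, WeierstrassCurve.b₂, WeierstrassCurve.b₄, WeierstrassCurve.b₆]
  push_cast
  ring

/-- from the short form to the curve -/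
theorem vr1 (hu : u ≠ 0) (ha : (a : ℚ) = -27 * (W.c₄ : ℚ) * u ^ 4)
    (hb : (b : ℚ) = -54 * (W.c₆ : ℚ) * u ^ 6) :
    VR (Sh a b) (W.map (Int.castRingHom ℚ)) (6 * u)
      (3 * u ^ 2 * ((W.a₁ : ℚ) ^ 2 + 4 * W.a₂)) (3 * u * W.a₁) (108 * u ^ 3 * W.a₃) := by
  rw [c4q] at ha
  rw [c6q] at hb
  refine ⟨mul_ne_zero (by norm_num) hu, ?_, ?_, ?_, ?_, ?_⟩
  · simp only [WeierstrassCurve.map_a₁, eq_intCast]
    ring
  · simp only [WeierstrassCurve.map_a₂, eq_intCast]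
    ring
  · simp only [WeierstrassCurve.map_a₃, eq_intCast]
    ring
  · simp only [WeierstrassCurve.map_a₄, eq_intCast]
    rw [ha]
    ring
  · simp only [WeierstrassCurve.map_a₆, eq_intCast]
    rw [ha, hb]
    ring

/-- from the curve to the short form -/
theorem vr2 (hu : u ≠ 0) (ha : (a : ℚ) = -27 * (W.c₄ : ℚ) * u ^ 4)
    (hb : (b : ℚ) = -54 * (W.c₆ : ℚ) * u ^ 6) :
    VR (W.map (Int.castRingHom ℚ)) (Sh a b) (1 / (6 * u))
      (-((W.a₁ : ℚ) ^ 2 + 4 * W.a₂) / 12) (-(W.a₁ : ℚ) / 2)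
      (-((W.a₃ : ℚ) + -((W.a₁ : ℚ) ^ 2 + 4 * W.a₂) / 12 * W.a₁) / 2) := by
  rw [c4q] at ha
  rw [c6q] at hb
  refine ⟨one_div_ne_zero (mul_ne_zero (by norm_num) hu), ?_, ?_, ?_, ?_, ?_⟩
  · simp only [WeierstrassCurve.map_a₁, eq_intCast]
    ring
  · simp only [WeierstrassCurve.map_a₁, WeierstrassCurve.map_a₂, eq_intCast]
    ring
  · simp only [WeierstrassCurve.map_a₁, WeierstrassCurve.map_a₃, eq_intCast]
    ring
  · simp only [WeierstrassCurve.map_a₁, WeierstrassCurve.map_a₂, WeierstrassCurve.map_a₃,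
      WeierstrassCurve.map_a₄, eq_intCast]
    rw [ha]
    field_simp
    ring
  · simp only [WeierstrassCurve.map_a₁, WeierstrassCurve.map_a₂, WeierstrassCurve.map_a₃,
      WeierstrassCurve.map_a₄, WeierstrassCurve.map_a₆, eq_intCast]
    rw [hb]
    field_simp
    ring

end

/-- (SF) **the short form** -/
theorem t_SF : S_SF := by
  intro W a b u hu hD ha hb
  have v := vr1 W a b u hu ha hb
  have v' := vr2 W a b u hu ha hb
  have hD' : (W.map (Int.castRingHom ℚ)).Δ ≠ 0 := by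
    rw [WeierstrassCurve.map_Δ, eq_intCast]
    exact_mod_cast hD
  have hS : (Sh a b).Δ ≠ 0 := v.delta_ne hD'
  rw [finSha_iff' v v' hS hD']
  unfold TR
  constructor
  · rintro ⟨h1, h2⟩
    refine ⟨h1, fun x hx => ?_⟩
    have h3 := h2 ((Pool.Agent.TH841.SH.D.eSha (Sh a b)).symm x) (by
      rw [← map_add, hx, map_zero])
    have h4 := congrArg (Pool.Agent.TH841.SH.D.eSha (Sh a b)) h3
    rwa [AddEquiv.apply_symm_apply, map_zero] at h4
  · rintro ⟨h1, h2⟩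
    refine ⟨h1, fun x hx => ?_⟩
    have h3 := h2 (Pool.Agent.TH841.SH.D.eSha (Sh a b) x) (by
      rw [← map_add, hx, map_zero])
    have h4 := congrArg (Pool.Agent.TH841.SH.D.eSha (Sh a b)).symm h3
    rwa [AddEquiv.symm_apply_apply, map_zero] at h4

end Pool.Agent.H227.JZ
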